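import Mathlib
import Pool.Agent.H71.MatchDefs
import Pool.Agent.H71.MatchFinal
import Pool.Agent.H71.MatchNec

set_option autoImplicit false

namespace Pool.Agent.Results.MP_b0b062_co.Full

open Pool.Agent.H71.Match

/-- For every odd prime `p` and every list `L` of `p` integers in `{1, ..., p - 1}` there is a perfect matching of
`K_{2p}` with list of edge lengths `L` if and only if the number of even entries of `L` is even. -/
theorem result (p : ℕ) (hp : p.Prime) (hodd : p ≠ 2) (L : Multiset ℕ) (hcard : Multiset.card L = p)
    (hL : ∀ l ∈ L, 1 ≤ l ∧ l ≤ p - 1) :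
    (∃ F : Finset (Sym2 (ZMod (2 * p))), IsPerfectMatching p F ∧ F.val.map (edgeLength p) = L) ↔
      Even (L.countP (fun l => Even l)) := by
  have : Fact p.Prime := ⟨hp⟩
  constructor
  · rintro ⟨F, hF, rfl⟩
    exact necessity p hp.pos F hF
  · intro h
    exact sufficiency hodd L hcard hL h

end Pool.Agent.Results.MP_b0b062_co.Full
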